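import Pool.Agent.Q221.EM.Fin
import Pool.Agent.Q223.TW.PtRed

/-!
# The equivariant motivic monodromy conjecture on smooth varieties: reduction to trilinear polynomials
-/

set_option autoImplicit false
set_option linter.unusedSectionVars false
set_option linter.unusedVariables false

namespace Pool.Agent.Q223.TM

open MvPolynomial Pool.Agent.W428.MOT Pool.Agent.Q221.EM Pool.Agent.Q42.CU Pool.Agent.Q223.MM
open Pool.Agent.Q223.TW
open Pool.Agent.H628R4.TP (IsBFunction)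
open Pool.Agent.Y229.MS (stabK)

variable {k : Type} [Field k] [Algebra k ℂ]

theorem stEq_of {m κ : ℕ} {F : MvPolynomial (Fin m) k} {G : MvPolynomial (Fin (m + (κ + κ))) k}
    (ψ : MvPolynomial (Fin (m + (κ + κ))) k ≃ₐ[k] MvPolynomial (Fin (m + (κ + κ))) k)
    (h : ψ (stabK F κ) = G) : StEq F κ G := ⟨rfl, ψ, h⟩

/-- **Programs for one polynomial.** -/
theorem exists_progs (S : Set k) (hS : (1 : k) ∈ AddSubgroup.closure S) (N m : ℕ)
    (F : MvPolynomial (Fin m) k) (hF : F.totalDegree ≠ 0)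
    (hFS : ∀ d, coeff d F ∈ AddSubgroup.closure S)
    (hb : ∃ b : Polynomial ℂ, IsBFunction (map (algebraMap k ℂ) F) b ∧ b ≠ 0) :
    ∃ κ : ℕ, 0 < κ ∧ ∃ (o : ∀ j : ℕ, Fin (κ + j) → Option (Fin (κ + j)))
      (v : ∀ j : ℕ, Fin (κ + j) → Fin m) (c : ∀ j : ℕ, Fin (κ + j) → k),
      (∀ j, Forest (o j) ∧ (∀ m, c j m ∈ coeffs S) ∧
        MinExp N (map (algebraMap k ℂ) (progA (o j) (v j) (c j) (coeff 0 F)))) ∧
      ∀ j, StEq F (κ + j) (progA (o j) (v j) (c j) (coeff 0 F)) := by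
  classical
  have hm : 0 < m := by
    rcases Nat.eq_zero_or_pos m with rfl | h
    · exfalso
      apply hF
      rw [eq_C_of_isEmpty F, totalDegree_C]
    · exact h
  set i0 : Fin m := ⟨0, hm⟩
  obtain ⟨b, hb, hb0⟩ := hb
  have hm1 := root_neg_one hF hb
  obtain ⟨p, rfl⟩ : (Polynomial.X + 1 : Polynomial ℂ) ∣ b := by
    have := Polynomial.dvd_iff_isRoot.2 hm1
    simpa using this
  obtain ⟨κ₀, hr⟩ := rep_all (S := S) (F - C (coeff 0 F)) (by
    rw [coeff_sub, coeff_zero_C, sub_self]) (by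
    intro d
    rw [coeff_sub, coeff_C]
    refine AddSubgroup.sub_mem _ (hFS d) ?_
    split_ifs
    · exact hFS 0
    · exact AddSubgroup.zero_mem _)
  obtain ⟨κ₁, h1⟩ := exists_progsM i0 hF hr N (right_ne_zero_of_mul hb0) hb
  choose o v c ho hc hm ψ hψ using fun j : ℕ => h1 (κ₁ + 1 + j) (by omega)
  exact ⟨κ₁ + 1, Nat.succ_pos _, o, v, c, fun j => ⟨ho j, hc j, hm j⟩,
    fun j => stEq_of (ψ j) (hψ j)⟩

/-- the coefficients of `f + ∑ y_q g_q` -/
theorem FK_cl {S : Set k} (hS : (1 : k) ∈ AddSubgroup.closure S) {n r : ℕ}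
    {f : MvPolynomial (Fin n) k} {g : Fin r → MvPolynomial (Fin n) k}
    (hf : ∀ d, coeff d f ∈ AddSubgroup.closure S)
    (hg : ∀ q d, coeff d (g q) ∈ AddSubgroup.closure S) (d : Fin (n + r) →₀ ℕ) :
    coeff d (FK f g) ∈ AddSubgroup.closure S := by
  have h1 : FK f g ∈ Cf (Fin (n + r)) (AddSubgroup.closure S) := by
    rw [FK]
    refine AddSubgroup.add_mem _ (rename_Cf _ (mem_Cf.2 fun d => hf d)) ?_
    exact AddSubgroup.sum_mem _ fun q _ => X_mul_CfK _ (rename_Cf _ (mem_Cf.2 fun d => hg q d))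
  exact mem_Cf.1 h1 d

/-- **The reduction for one function.** -/
theorem reduce_tri (S : Set k) (hS : (1 : k) ∈ AddSubgroup.closure S) (N : ℕ) {n r : ℕ}
    {g : Fin r → MvPolynomial (Fin n) k} {f : MvPolynomial (Fin n) k} (hg : SmoothCI g)
    (hgS : ∀ q d, coeff d (g q) ∈ AddSubgroup.closure S)
    (hfS : ∀ d, coeff d f ∈ AddSubgroup.closure S) :
    ∃ (m κ : ℕ) (a : k), 0 < κ ∧ a ∈ AddSubgroup.closure S ∧
      ∃ (o : ∀ j : ℕ, Fin (κ + j) → Option (Fin (κ + j)))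
      (v : ∀ j : ℕ, Fin (κ + j) → Fin m) (c : ∀ j : ℕ, Fin (κ + j) → k),
      (∀ j, Forest (o j) ∧ (∀ m, c j m ∈ coeffs S) ∧
        MinExp N (map (algebraMap k ℂ) (progA (o j) (v j) (c j) a))) ∧
      ((∀ j < 4, Q1A (progA (o j) (v j) (c j) a)) → Q1X g f) := by
  -- the trivial cases
  have triv : Q1X g f → ∃ (m κ : ℕ) (a : k), 0 < κ ∧ a ∈ AddSubgroup.closure S ∧
      ∃ (o : ∀ j : ℕ, Fin (κ + j) → Option (Fin (κ + j)))
      (v : ∀ j : ℕ, Fin (κ + j) → Fin m) (c : ∀ j : ℕ, Fin (κ + j) → k),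
      (∀ j, Forest (o j) ∧ (∀ m, c j m ∈ coeffs S) ∧
        MinExp N (map (algebraMap k ℂ) (progA (o j) (v j) (c j) a))) ∧
      ((∀ j < 4, Q1A (progA (o j) (v j) (c j) a)) → Q1X g f) := by
    intro h
    have hX : (X 0 : MvPolynomial (Fin 1) k).totalDegree ≠ 0 := by
      rw [totalDegree_X]
      exact one_ne_zero
    obtain ⟨κ, hκ, o, v, c, h1, -⟩ := exists_progs S hS N 1 (X 0) hX (by
      intro d
      rw [coeff_X]
      split_ifs
      · exact hS
      · exact AddSubgroup.zero_mem _) ⟨Polynomial.X + 1, by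
        rw [map_X]
        have := bfun_X (0 : Fin 1)
        simpa using this, by
        intro h0
        have := congrArg (Polynomial.eval 0) h0
        simp at this⟩
    refine ⟨1, κ, coeff 0 (X 0 : MvPolynomial (Fin 1) k), hκ, ?_, o, v, c, h1, fun _ => h⟩
    rw [coeff_zero_X]
    exact AddSubgroup.zero_mem _
  by_cases h1 : f ∈ Ideal.span (Set.range g)
  · exact triv (Q1X_of_mem h1)
  by_cases h2 : (1 : MvPolynomial (Fin n) k) ∈ Ideal.span (insert f (Set.range g))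
  · exact triv (Q1X_of_one h2)
  by_cases hb : ∃ b : Polynomial ℂ, IsBFunction (map (algebraMap k ℂ) (FK f g)) b ∧ b ≠ 0
  · obtain ⟨κ, hκ, o, v, c, h3, h4⟩ := exists_progs S hS N (n + r) (FK f g) (FK_deg h1 h2)
      (FK_cl hS hfS hgS) hb
    refine ⟨n + r, κ, _, hκ, FK_cl hS hfS hgS 0, o, v, c, h3, fun h => ?_⟩
    exact reduce_one hg.1 hg.2 (m := fun j => n + r + (κ + j + (κ + j)))
      (Φ := fun j => progA (o j) (v j) (c j) (coeff 0 (FK f g)))
      (fun j _ => h4 j) fun j hj => Q1P_ofA (h j hj)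
  · refine triv fun b hb0 hb' => ?_
    exact absurd ⟨_, isBFunction_FK hg.1 hb', comp_ne_zero hb0 r⟩ hb

/-- **The equivalence.** -/
theorem equiv_tri (S : Set k) (hS : (1 : k) ∈ AddSubgroup.closure S) (N : ℕ) :
    (∀ (n r : ℕ) (g : Fin r → MvPolynomial (Fin n) k) (f : MvPolynomial (Fin n) k), SmoothCI g →
      (∀ q d, coeff d (g q) ∈ AddSubgroup.closure S) →
      (∀ d, coeff d f ∈ AddSubgroup.closure S) → Q1X g f) ↔
    ∀ (m κ : ℕ) (o : Fin κ → Option (Fin κ)) (v : Fin κ → Fin m) (c : Fin κ → k) (a : k),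
      0 < κ → Forest o → (∀ m, c m ∈ coeffs S) → a ∈ AddSubgroup.closure S →
      MinExp N (map (algebraMap k ℂ) (progA o v c a)) → Q1A (progA o v c a) := by
  constructor
  · intro h m κ o v c a hκ _ hc ha _
    exact h _ 0 Fin.elim0 _ smoothCI_elim0 (fun q => q.elim0) (progA_coeff hS o v c hc ha)
  · intro h n r g f hg hgS hfS
    obtain ⟨m, κ, a, hκ, ha, o, v, c, h1, h2⟩ := reduce_tri S hS N hg hgS hfS
    exact h2 fun j _ => h m (κ + j) (o j) (v j) (c j) a (by omega) (h1 j).1 (h1 j).2.1 ha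
      (h1 j).2.2

end Pool.Agent.Q223.TM
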